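import Pool.Agent.H46.Yao.Final

set_option autoImplicit false

open Polynomial Filter Topology IsDedekindDomain Pool.Agent.H46.Yao

/-- Yao's conjecture. `n j` are the base-`q` digits, `x = Π_v(n)` is the limit in `K_v` of the finite
products of the `(-D_{j,v}) ^ n_j`; if it is algebraic over `K = F(t)` the digits are ultimately
periodic of period `deg v`. -/
theorem Pool.Agent.Results.MP_253687_nt.Proof.result (F : Type) [Field F] [Finite F] (v : F[X])
    (hm : v.Monic) (hv : Irreducible v) (𝔳 : HeightOneSpectrum F[X])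
    (h𝔳 : 𝔳.asIdeal = Ideal.span {v}) (n : ℕ → ℕ) (hn : ∀ j, n j < Nat.card F) :
    ∃ x : 𝔳.adicCompletion (RatFunc F),
      Tendsto (fun m => ∏ j ∈ Finset.range m,
        (-algebraMap F[X] (𝔳.adicCompletion (RatFunc F)) (Dv v j)) ^ n j) atTop (𝓝 x) ∧
      (IsAlgebraic (RatFunc F) x → ∃ J, ∀ j ≥ J, n (j + v.natDegree) = n j) := by
  obtain ⟨a, b⟩ := main hm hv
  obtain ⟨x, hx⟩ := ex_tendsto hm.ne_zero h𝔳 (a := fun j => (-Dv v j) ^ n j) fun i =>
    (a i).trans (by simpa using sub_dvd_pow_sub_pow (-Dv v (i + v.natDegree)) 1 _)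
  refine ⟨x, by simpa using hx, fun h => ?_⟩
  obtain ⟨g, g0, hg⟩ := (IsFractionRing.isAlgebraic_iff F[X] (RatFunc F) _).mpr h
  refine b n hn g g0 (ev_dvd hm.ne_zero h𝔳 ?_)
  have := ((g.continuous_aeval).tendsto x).comp hx
  rw [hg] at this
  convert this using 2 with m
  rw [Function.comp_apply, ← map_prod, aeval_algebraMap_apply, coe_aeval_eq_eval]
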